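import Pool.Agent.Lib.MP_f0391a_al.Rado

set_option autoImplicit false

namespace Pool.Agent.Lib.MP_f0391a_al

open Classical symmDiff

/-- the sign of a proposition. -/
noncomputable def sg (P : Prop) : ℚ := if P then -1 else 1

lemma sg_pos {P : Prop} (h : P) : sg P = -1 := by simp [sg, h]
lemma sg_neg {P : Prop} (h : ¬ P) : sg P = 1 := by simp [sg, h]
lemma sg_eq (P : Prop) : sg P = 1 ∨ sg P = -1 := by
  by_cases h : P
  · exact Or.inr (sg_pos h)
  · exact Or.inl (sg_neg h)

lemma mem_edgeSet_comap {V W : Type*} (G : SimpleGraph W) (f : V → W) (p : Sym2 V) :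
    p ∈ (G.comap f).edgeSet ↔ p.map f ∈ G.edgeSet := by
  induction p using Sym2.ind with
  | _ a b => simp

lemma adj_symmDiff {V : Type*} (Γ Γ' : SimpleGraph V) (a b : V) :
    (Γ ∆ Γ').Adj a b ↔ ¬ (Γ.Adj a b ↔ Γ'.Adj a b) := by
  rw [symmDiff_def]
  simp only [SimpleGraph.sup_adj, SimpleGraph.sdiff_adj]
  tauto

lemma mem_edgeSet_symmDiff {V : Type*} (Γ Γ' : SimpleGraph V) (p : Sym2 V) :
    p ∈ (Γ ∆ Γ').edgeSet ↔ ¬ (p ∈ Γ.edgeSet ↔ p ∈ Γ'.edgeSet) := by
  induction p using Sym2.ind with
  | _ a b => simp only [SimpleGraph.mem_edgeSet]; exact adj_symmDiff Γ Γ' a b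

section
variable {V W : Type} [Fintype V] [Fintype W]

/-- The character `χ_H(Γ) = (-1)^{|E(H) ∩ E(Γ)|}`. -/
noncomputable def chi (H Γ : SimpleGraph V) : ℚ :=
  ∏ p : Sym2 V, sg (p ∈ H.edgeSet ∧ p ∈ Γ.edgeSet)

lemma chi_comm (H Γ : SimpleGraph V) : chi H Γ = chi Γ H := by
  unfold chi
  exact Finset.prod_congr rfl fun p _ => by rw [and_comm]

lemma chi_symmDiff (H Γ Γ' : SimpleGraph V) : chi H (Γ ∆ Γ') = chi H Γ * chi H Γ' := by
  unfold chi
  rw [← Finset.prod_mul_distrib]
  refine Finset.prod_congr rfl fun p _ => ?_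
  rw [mem_edgeSet_symmDiff]
  by_cases h1 : p ∈ H.edgeSet <;> by_cases h2 : p ∈ Γ.edgeSet <;>
    by_cases h3 : p ∈ Γ'.edgeSet <;> simp [h1, h2, h3, sg]

lemma chi_mul_left (H H' Γ : SimpleGraph V) : chi H Γ * chi H' Γ = chi (H ∆ H') Γ := by
  rw [chi_comm H, chi_comm H', ← chi_symmDiff, chi_comm]

/-- equivalence on unordered pairs. -/
def sym2Equiv {V W : Type*} (e : V ≃ W) : Sym2 V ≃ Sym2 W where
  toFun := Sym2.map e
  invFun := Sym2.map e.symm
  left_inv p := by rw [Sym2.map_map]; simp
  right_inv p := by rw [Sym2.map_map]; simp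

lemma chi_comap (e : V ≃ W) (H Γ : SimpleGraph W) :
    chi (H.comap e) (Γ.comap e) = chi H Γ := by
  unfold chi
  rw [← (sym2Equiv e).prod_comp]
  refine Finset.prod_congr rfl fun p _ => ?_
  rw [mem_edgeSet_comap, mem_edgeSet_comap]
  rfl

/-- product over `w` of the signs of the pairs `vw`; it is `(-1)^{deg v}`. -/
noncomputable def sgnDeg (H : SimpleGraph V) (v : V) : ℚ :=
  ∏ w : V, sg (H.Adj v w)

lemma sgnDeg_eq (H : SimpleGraph V) (v : V) : sgnDeg H v = 1 ∨ sgnDeg H v = -1 := by
  unfold sgnDeg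
  refine Finset.prod_induction _ (fun x : ℚ => x = 1 ∨ x = -1) ?_ (Or.inl rfl) ?_
  · rintro a b (rfl | rfl) (rfl | rfl) <;> simp
  · intro w _
    exact sg_eq _

/-- the star graph at `v`. -/
def star {V : Type*} (v : V) : SimpleGraph V where
  Adj a b := a ≠ b ∧ (a = v ∨ b = v)
  symm := ⟨fun _ _ h => ⟨h.1.symm, h.2.symm⟩⟩
  loopless := ⟨fun _ h => h.1 rfl⟩

lemma chi_star (H : SimpleGraph V) (v : V) : chi H (star v) = sgnDeg H v := by
  unfold chi sgnDeg
  have hinj : Function.Injective (fun w : V => s(v, w)) := fun a b h =>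
    Sym2.congr_right.mp h
  have hL : ∏ w : V, sg (H.Adj v w) =
      ∏ p ∈ Finset.univ.image (fun w : V => s(v, w)), sg (p ∈ H.edgeSet ∧ p ∈ (star v).edgeSet) := by
    rw [Finset.prod_image (by
      intro a _ b _ h
      exact hinj h)]
    refine Finset.prod_congr rfl fun w _ => ?_
    simp only [SimpleGraph.mem_edgeSet, star]
    by_cases h : H.Adj v w
    · have := h.ne
      simp [h, this]
    · simp [h]
  rw [hL]
  symm
  refine Finset.prod_subset (Finset.subset_univ _) ?_
  intro p _ hp
  induction p using Sym2.ind with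
  | _ a b =>
    apply sg_neg
    rintro ⟨h1, h2⟩
    simp only [SimpleGraph.mem_edgeSet, star] at h2
    apply hp
    rw [Finset.mem_image]
    rcases h2.2 with rfl | rfl
    · exact ⟨b, Finset.mem_univ _, rfl⟩
    · exact ⟨a, Finset.mem_univ _, Sym2.eq_swap⟩

/-- all degrees are even. -/
def IsEven (H : SimpleGraph V) : Prop := ∀ v, sgnDeg H v = 1

/-- the cut graph between `S` and its complement -/
def cut {V : Type*} (S : Set V) : SimpleGraph V where
  Adj a b := ¬ (a ∈ S ↔ b ∈ S)
  symm := ⟨fun _ _ h => by tauto⟩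
  loopless := ⟨fun _ h => h Iff.rfl⟩

lemma chi_bot (H : SimpleGraph V) : chi H ⊥ = 1 := by
  unfold chi
  simp [sg]

lemma star_eq_cut {V : Type*} (v : V) : star v = cut ({v} : Set V) := by
  ext a b
  simp only [star, cut, Set.mem_singleton_iff]
  by_cases ha : a = v <;> by_cases hb : b = v
  · subst ha; subst hb; simp
  · subst ha
    have hne : a ≠ b := fun h => hb h.symm
    simp [hb, hne]
  · subst hb
    simp [ha]
  · simp [ha, hb]

lemma chi_cut {H : SimpleGraph V} (hH : IsEven H) (S : Finset V) :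
    chi H (cut (S : Set V)) = 1 := by
  induction S using Finset.induction_on with
  | empty =>
    have : cut ((∅ : Finset V) : Set V) = ⊥ := by
      ext a b
      simp [cut]
    rw [this, chi_bot]
  | insert v S hv ih =>
    have : cut ((insert v S : Finset V) : Set V) = cut (S : Set V) ∆ star v := by
      ext a b
      rw [adj_symmDiff, star_eq_cut]
      simp only [cut, Finset.coe_insert, Set.mem_insert_iff, Finset.mem_coe, Set.mem_singleton_iff]
      by_cases ha : a = v <;> by_cases hb : b = v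
      · subst ha; subst hb; simp
      · subst ha
        simp [hb, hv]
      · subst hb
        simp [ha, hv]
      · simp [ha, hb]
    rw [this, chi_symmDiff, ih, chi_star, hH v, one_mul]

lemma switch_eq {V : Type*} (Γ : SimpleGraph V) (S : Set V) : switch Γ S = Γ ∆ cut S := by
  ext a b
  rw [adj_symmDiff]
  simp only [switch, cut]
  constructor
  · rintro ⟨_, h⟩
    tauto
  · intro h
    refine ⟨?_, by tauto⟩
    rintro rfl
    have : ¬ Γ.Adj a a := Γ.irrefl
    tauto

/-- orthogonality -/
lemma chi_orth (H H' : SimpleGraph V) :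
    ∑ Γ : SimpleGraph V, chi H Γ * chi H' Γ =
      if H = H' then (Fintype.card (SimpleGraph V) : ℚ) else 0 := by
  split_ifs with h
  · subst h
    have : ∀ Γ : SimpleGraph V, chi H Γ * chi H Γ = 1 := by
      intro Γ
      rw [chi_mul_left, symmDiff_self, chi_comm]
      exact chi_bot Γ
    simp [this]
  · obtain ⟨a, b, hab⟩ : ∃ a b, ¬ (H.Adj a b ↔ H'.Adj a b) := by
      by_contra hcon
      push Not at hcon
      exact h (by ext a b; exact hcon a b)
    simp only [chi_mul_left]
    have hadj : (H ∆ H').Adj a b := (adj_symmDiff H H' a b).2 hab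
    have hne : a ≠ b := hadj.ne
    have hchi : chi (H ∆ H') (SimpleGraph.edge a b) = -1 := by
      unfold chi
      rw [Finset.prod_eq_single s(a, b)]
      · apply sg_pos
        refine ⟨hadj, ?_⟩
        rw [SimpleGraph.mem_edgeSet, SimpleGraph.edge_adj]
        exact ⟨Or.inl ⟨rfl, rfl⟩, hne⟩
      · intro p _ hp
        apply sg_neg
        rintro ⟨-, h2⟩
        apply hp
        induction p using Sym2.ind with
        | _ c d =>
          rw [SimpleGraph.mem_edgeSet, SimpleGraph.edge_adj] at h2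
          rcases h2.1 with ⟨rfl, rfl⟩ | ⟨rfl, rfl⟩
          · rfl
          · exact Sym2.eq_swap
      · intro h; exact absurd (Finset.mem_univ _) h
    have hsum : ∑ Γ : SimpleGraph V, chi (H ∆ H') Γ =
        ∑ Γ : SimpleGraph V, chi (H ∆ H') (Γ ∆ SimpleGraph.edge a b) := by
      symm
      refine Fintype.sum_equiv ⟨fun Γ => Γ ∆ SimpleGraph.edge a b,
        fun Γ => Γ ∆ SimpleGraph.edge a b, ?_, ?_⟩ _ _ ?_
      · intro Γ; simp
      · intro Γ; simp
      · intro Γ; rfl
    simp only [chi_symmDiff, hchi] at hsum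
    rw [← Finset.sum_mul] at hsum
    linarith

end

/-- the product formula for disjoint sums. -/
lemma chi_sum {V W : Type} [Fintype V] [Fintype W] (H : SimpleGraph V) (H' : SimpleGraph W)
    (Γ : SimpleGraph (V ⊕ W)) :
    chi (H ⊕g H') Γ = chi H (Γ.comap Sum.inl) * chi H' (Γ.comap Sum.inr) := by
  have h1 : chi H (Γ.comap Sum.inl) =
      ∏ p ∈ Finset.univ.image (Sym2.map (Sum.inl : V → V ⊕ W)),
        sg (p ∈ (H ⊕g H').edgeSet ∧ p ∈ Γ.edgeSet) := by
    unfold chi
    rw [Finset.prod_image (by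
      intro a _ b _ h
      exact Sym2.map.injective Sum.inl_injective h)]
    refine Finset.prod_congr rfl fun p _ => ?_
    rw [mem_edgeSet_comap]
    have : p ∈ H.edgeSet ↔ Sym2.map Sum.inl p ∈ (H ⊕g H').edgeSet := by
      induction p using Sym2.ind with
      | _ a b => simp
    rw [this]
  have h2 : chi H' (Γ.comap Sum.inr) =
      ∏ p ∈ Finset.univ.image (Sym2.map (Sum.inr : W → V ⊕ W)),
        sg (p ∈ (H ⊕g H').edgeSet ∧ p ∈ Γ.edgeSet) := by
    unfold chi
    rw [Finset.prod_image (by
      intro a _ b _ h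
      exact Sym2.map.injective Sum.inr_injective h)]
    refine Finset.prod_congr rfl fun p _ => ?_
    rw [mem_edgeSet_comap]
    have : p ∈ H'.edgeSet ↔ Sym2.map Sum.inr p ∈ (H ⊕g H').edgeSet := by
      induction p using Sym2.ind with
      | _ a b => simp
    rw [this]
  rw [h1, h2, ← Finset.prod_union]
  · symm
    unfold chi
    refine Finset.prod_subset (Finset.subset_univ _) ?_
    intro p _ hp
    apply sg_neg
    rintro ⟨h, -⟩
    apply hp
    induction p using Sym2.ind with
    | _ a b =>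
      rw [Finset.mem_union, Finset.mem_image, Finset.mem_image]
      rcases a with a | a <;> rcases b with b | b
      · exact Or.inl ⟨s(a, b), Finset.mem_univ _, rfl⟩
      · simp at h
      · simp at h
      · exact Or.inr ⟨s(a, b), Finset.mem_univ _, rfl⟩
  · rw [Finset.disjoint_left]
    intro p hp hq
    rw [Finset.mem_image] at hp hq
    obtain ⟨p', -, rfl⟩ := hp
    obtain ⟨q', -, h⟩ := hq
    induction p' using Sym2.ind with
    | _ a b =>
      induction q' using Sym2.ind with
      | _ c d => simp at h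

end Pool.Agent.Lib.MP_f0391a_al
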