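import Pool.Agent.Lib.MP_f0391a_al.Fourier

set_option autoImplicit false

namespace Pool.Agent.Lib.MP_f0391a_al

open Classical symmDiff

/-- Embeddings of `C` into `H` as a union of connected components. -/
def CEmb {W V : Type} (C : SimpleGraph W) (H : SimpleGraph V) : Set (W → V) :=
  {φ | Function.Injective φ ∧ (∀ a b, C.Adj a b ↔ H.Adj (φ a) (φ b)) ∧
    ∀ a v, H.Adj (φ a) v → v ∈ Set.range φ}

/-- number of such embeddings -/
noncomputable def cnt {W V : Type} (C : SimpleGraph W) (H : SimpleGraph V) : ℕ := (CEmb C H).ncard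

lemma cnt_le_of_iso {W V V' : Type} [Finite W] [Finite V] [Finite V'] (C : SimpleGraph W) {H : SimpleGraph V}
    {H' : SimpleGraph V'} (φ : H ≃g H') : cnt C H ≤ cnt C H' := by
  unfold cnt
  refine Set.ncard_le_ncard_of_injOn (fun f => φ ∘ f) ?_ ?_ (Set.toFinite _)
  · rintro f ⟨h1, h2, h3⟩
    refine ⟨φ.injective.comp h1, ?_, ?_⟩
    · intro a b
      rw [h2]
      exact (φ.map_rel_iff (a := f a) (b := f b)).symm
    · intro a v hv
      have : H.Adj (f a) (φ.symm v) := by
        rw [← φ.map_rel_iff]
        simpa using hv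
      obtain ⟨w, hw⟩ := h3 a _ this
      exact ⟨w, by simp [hw]⟩
  · intro f _ g _ h
    funext a
    exact φ.injective (congrFun h a)

lemma cnt_iso {W V V' : Type} [Finite W] [Finite V] [Finite V'] (C : SimpleGraph W) {H : SimpleGraph V}
    {H' : SimpleGraph V'} (φ : H ≃g H') : cnt C H = cnt C H' :=
  le_antisymm (cnt_le_of_iso C φ) (cnt_le_of_iso C φ.symm)

lemma cnt_sum {W V V' : Type} [Finite W] [Finite V] [Finite V'] {C : SimpleGraph W}
    (hC : C.Connected) (H : SimpleGraph V) (H' : SimpleGraph V') :
    cnt C (H ⊕g H') = cnt C H + cnt C H' := by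
  have hset : CEmb C (H ⊕g H') = (fun f => Sum.inl ∘ f) '' CEmb C H ∪ (fun f => Sum.inr ∘ f) '' CEmb C H' := by
    ext f
    constructor
    · rintro ⟨h1, h2, h3⟩
      obtain ⟨w₀⟩ := hC.nonempty
      -- all values lie on the same side
      have hside : ∀ w, (f w).isLeft = (f w₀).isLeft := by
        intro w
        obtain ⟨p⟩ := hC.preconnected w w₀
        induction p with
        | nil => rfl
        | cons hadj _ ih =>
          rw [← ih]
          rw [h2] at hadj
          revert hadj
          rename_i u v _ _
          rcases f u with a | a <;> rcases f v with b | b <;> simp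
      rcases hf0 : f w₀ with a | a
      · left
        have : ∀ w, ∃ b, f w = Sum.inl b := by
          intro w
          have := hside w
          rw [hf0] at this
          rcases hfw : f w with b | b
          · exact ⟨b, rfl⟩
          · rw [hfw] at this
            simp at this
        choose g hg using this
        have hfg : f = Sum.inl ∘ g := funext hg
        refine ⟨g, ⟨?_, ?_, ?_⟩, hfg.symm⟩
        · rw [hfg] at h1
          exact Function.Injective.of_comp h1
        · intro a b
          rw [h2, hg, hg]
          simp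
        · intro a v hv
          have := h3 a (Sum.inl v) (by rw [hg]; simpa using hv)
          obtain ⟨w, hw⟩ := this
          rw [hg] at hw
          exact ⟨w, Sum.inl_injective hw⟩
      · right
        have : ∀ w, ∃ b, f w = Sum.inr b := by
          intro w
          have := hside w
          rw [hf0] at this
          rcases hfw : f w with b | b
          · rw [hfw] at this
            simp at this
          · exact ⟨b, rfl⟩
        choose g hg using this
        have hfg : f = Sum.inr ∘ g := funext hg
        refine ⟨g, ⟨?_, ?_, ?_⟩, hfg.symm⟩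
        · rw [hfg] at h1
          exact Function.Injective.of_comp h1
        · intro a b
          rw [h2, hg, hg]
          simp
        · intro a v hv
          have := h3 a (Sum.inr v) (by rw [hg]; simpa using hv)
          obtain ⟨w, hw⟩ := this
          rw [hg] at hw
          exact ⟨w, Sum.inr_injective hw⟩
    · rintro (⟨g, ⟨h1, h2, h3⟩, rfl⟩ | ⟨g, ⟨h1, h2, h3⟩, rfl⟩)
      · refine ⟨Sum.inl_injective.comp h1, ?_, ?_⟩
        · intro a b
          rw [h2]
          simp
        · intro a v hv
          rcases v with v | v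
          · obtain ⟨w, hw⟩ := h3 a v (by simpa using hv)
            exact ⟨w, by simp [hw]⟩
          · simp at hv
      · refine ⟨Sum.inr_injective.comp h1, ?_, ?_⟩
        · intro a b
          rw [h2]
          simp
        · intro a v hv
          rcases v with v | v
          · simp at hv
          · obtain ⟨w, hw⟩ := h3 a v (by simpa using hv)
            exact ⟨w, by simp [hw]⟩
  unfold cnt
  rw [hset, Set.ncard_union_eq]
  · rw [Set.ncard_image_of_injective, Set.ncard_image_of_injective]
    · intro f g h
      funext a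
      exact Sum.inr_injective (congrFun h a)
    · intro f g h
      funext a
      exact Sum.inl_injective (congrFun h a)
  · rw [Set.disjoint_left]
    rintro _ ⟨f, -, rfl⟩ ⟨g, -, hg⟩
    obtain ⟨w₀⟩ := hC.nonempty
    have := congrFun hg w₀
    simp at this

lemma iso_of_cnt_ne_zero {W V : Type} [Finite W] [Finite V] {C : SimpleGraph W} {D : SimpleGraph V}
    (hC : C.Connected) (hD : D.Connected) (h : cnt C D ≠ 0) : Nonempty (C ≃g D) := by
  unfold cnt at h
  obtain ⟨f, h1, h2, h3⟩ := Set.nonempty_of_ncard_ne_zero h
  obtain ⟨w₀⟩ := hC.nonempty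
  have hsurj : Function.Surjective f := by
    intro v
    obtain ⟨p⟩ := hD.preconnected (f w₀) v
    suffices H : ∀ (a b : V) (p : D.Walk a b), a ∈ Set.range f → b ∈ Set.range f from
      H _ _ p ⟨w₀, rfl⟩
    intro a b p
    induction p with
    | nil => exact id
    | cons hadj _ ih =>
      rintro ⟨w, rfl⟩
      exact ih (h3 w _ hadj)
  refine ⟨⟨Equiv.ofBijective f ⟨h1, hsurj⟩, ?_⟩⟩
  intro a b
  exact (h2 a b).symm

lemma cnt_self_pos {W : Type} [Finite W] (C : SimpleGraph W) : 0 < cnt C C := by
  unfold cnt
  rw [Set.ncard_pos (Set.toFinite _)]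
  exact ⟨id, Function.injective_id, fun a b => Iff.rfl, fun a v _ => ⟨v, rfl⟩⟩

/-- splitting a disconnected graph -/
lemma exists_split {V : Type} [Fintype V] {H : SimpleGraph V} (hH : IsEven H)
    (hne : Nonempty V) (hnc : ¬ H.Connected) :
    ∃ (A B : Type) (_ : Fintype A) (_ : Fintype B) (HA : SimpleGraph A) (HB : SimpleGraph B),
      Nonempty (H ≃g (HA ⊕g HB)) ∧ IsEven HA ∧ IsEven HB ∧
      Fintype.card A < Fintype.card V ∧ Fintype.card B < Fintype.card V := by
  have hpc : ¬ H.Preconnected := fun h => hnc ⟨h⟩
  obtain ⟨u, w, huw⟩ : ∃ u w, ¬ H.Reachable u w := by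
    by_contra hcon
    push Not at hcon
    exact hpc hcon
  let P : V → Prop := fun v => H.Reachable u v
  have hP : ∀ a b, H.Adj a b → (P a ↔ P b) := by
    intro a b hab
    exact ⟨fun h => h.trans hab.reachable, fun h => h.trans hab.symm.reachable⟩
  let e : {v // P v} ⊕ {v // ¬ P v} ≃ V := Equiv.sumCompl P
  let HA : SimpleGraph {v // P v} := H.comap Subtype.val
  let HB : SimpleGraph {v // ¬ P v} := H.comap Subtype.val
  have hiso : ∀ x y, H.Adj (e x) (e y) ↔ (HA ⊕g HB).Adj x y := by
    intro x y
    rcases x with ⟨x, hx⟩ | ⟨x, hx⟩ <;> rcases y with ⟨y, hy⟩ | ⟨y, hy⟩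
    · simp [e, HA]
    · simp only [e, Equiv.sumCompl_apply_inl, Equiv.sumCompl_apply_inr]
      constructor
      · intro h
        exact absurd ((hP _ _ h).1 hx) hy
      · intro h
        simp at h
    · simp only [e, Equiv.sumCompl_apply_inl, Equiv.sumCompl_apply_inr]
      constructor
      · intro h
        exact absurd ((hP _ _ h).2 hy) hx
      · intro h
        simp at h
    · simp [e, HB]
  have hdeg : ∀ x, sgnDeg (HA ⊕g HB) x = sgnDeg H (e x) := by
    intro x
    unfold sgnDeg
    rw [← e.prod_comp]
    refine Finset.prod_congr rfl fun y _ => ?_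
    rw [hiso]
  refine ⟨{v // P v}, {v // ¬ P v}, inferInstance, inferInstance, HA, HB, ⟨?_⟩, ?_, ?_, ?_, ?_⟩
  · refine ⟨e.symm, ?_⟩
    intro a b
    rw [← hiso]
    simp
  · intro a
    have h1 := hdeg (Sum.inl a)
    rw [hH] at h1
    rw [← h1]
    unfold sgnDeg
    rw [Fintype.prod_sum_type]
    have : ∏ b : {v // ¬ P v}, sg ((HA ⊕g HB).Adj (Sum.inl a) (Sum.inr b)) = 1 :=
      Finset.prod_eq_one fun b _ => sg_neg (by simp)
    rw [this, mul_one]
    exact Finset.prod_congr rfl fun b _ => by simp
  · intro a
    have h1 := hdeg (Sum.inr a)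
    rw [hH] at h1
    rw [← h1]
    unfold sgnDeg
    rw [Fintype.prod_sum_type]
    have : ∏ b : {v // P v}, sg ((HA ⊕g HB).Adj (Sum.inr a) (Sum.inl b)) = 1 :=
      Finset.prod_eq_one fun b _ => sg_neg (by simp)
    rw [this, one_mul]
    exact Finset.prod_congr rfl fun b _ => by simp
  · exact Fintype.card_subtype_lt (x := w) huw
  · exact Fintype.card_subtype_lt (x := u) (by
      simp only [not_not]
      exact SimpleGraph.Reachable.refl u)

end Pool.Agent.Lib.MP_f0391a_al
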