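import Pool.Agent.Lib.MP_f0391a_al.XH

set_option autoImplicit false

namespace Pool.Agent.Lib.MP_f0391a_al

open Classical symmDiff

/-- `σ` is a switching automorphism of the BIT graph. -/
def IsSw (σ : Equiv.Perm ℕ) : Prop :=
  ∃ S : Set ℕ, ∀ i j, i ≠ j → (bit.Adj (σ i) (σ j) ↔ (bit.Adj i j ↔ (i ∈ S ↔ j ∈ S)))

section
variable {V : Type} [Fintype V]

lemma extend_switch {e e' : V → ℕ} (he : Function.Injective e) (he' : Function.Injective e')
    (S : Finset V) (h : bit.comap e' = bit.comap e ∆ cut (S : Set V)) :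
    ∃ σ : Equiv.Perm ℕ, IsSw σ ∧ ∀ v, σ (e v) = e' v := by
  have hmem : ∀ v, e v ∈ S.image e ↔ v ∈ S := by
    intro v
    rw [Finset.mem_image]
    constructor
    · rintro ⟨w, hw, hwv⟩
      rw [← he hwv]
      exact hw
    · intro hv
      exact ⟨v, hv, rfl⟩
  obtain ⟨σ, h1, h2⟩ := exists_perm (extProp_switch extProp_bit (S.image e)) extProp_bit
    ⟨Finset.univ.image (fun v => (e v, e' v)), by
      intro p hp q hq
      rw [Finset.mem_image] at hp hq
      obtain ⟨v, -, rfl⟩ := hp
      obtain ⟨w, -, rfl⟩ := hq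
      refine ⟨by simp only [he.eq_iff, he'.eq_iff], ?_⟩
      have h3 : bit.Adj (e' v) (e' w) ↔ (bit.comap e').Adj v w := Iff.rfl
      rw [h3, h, adj_symmDiff]
      simp only [switch, cut, SimpleGraph.comap_adj, Finset.mem_coe, he.ne_iff, hmem]
      by_cases hvw : v = w
      · subst hvw
        simp
      · have hne : v ≠ w := hvw
        by_cases h4 : bit.Adj (e v) (e w) <;> by_cases h5 : v ∈ S <;> by_cases h6 : w ∈ S <;>
          simp [h4, h5, h6, hne]⟩
  refine ⟨σ, ⟨((S.image e : Finset ℕ) : Set ℕ), ?_⟩, ?_⟩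
  · intro i j hij
    rw [← h2]
    simp only [switch]
    exact ⟨fun h => h.2, fun h => ⟨hij, h⟩⟩
  · intro v
    exact h1 (e v, e' v) (Finset.mem_image_of_mem _ (Finset.mem_univ v))

lemma fourier (F : SimpleGraph V → ℚ) (Γ : SimpleGraph V) :
    (Fintype.card (SimpleGraph V) : ℚ) * F Γ =
      ∑ H : SimpleGraph V, (∑ Γ' : SimpleGraph V, F Γ' * chi H Γ') * chi H Γ := by
  have h : ∀ Γ' : SimpleGraph V, ∑ H : SimpleGraph V, chi H Γ' * chi H Γ =
      if Γ' = Γ then (Fintype.card (SimpleGraph V) : ℚ) else 0 := by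
    intro Γ'
    rw [← chi_orth]
    exact Finset.sum_congr rfl fun H _ => by rw [chi_comm H, chi_comm H]
  simp only [Finset.sum_mul]
  rw [Finset.sum_comm]
  simp only [mul_assoc, ← Finset.mul_sum, h]
  simp [mul_comm]

/-- Fourier expansion of a function invariant under the switching group. -/
lemma expand (V : Type) [Fintype V] (F : Finset ℕ → ℚ)
    (hF : ∀ σ, IsSw σ → ∀ s, F (s.map σ.toEmbedding) = F s) :
    ∃ c : SimpleGraph V → ℚ, (∀ H, c H ≠ 0 → IsEven H) ∧
      ∀ s : Finset ℕ, s.card = Fintype.card V → F s = ∑ H : SimpleGraph V, c H * X H s := by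
  have hemb : ∀ Γ : SimpleGraph V, ∃ g : V → ℕ, Function.Injective g ∧ bit.comap g = Γ :=
    fun Γ => exists_embedding extProp_bit Γ
  choose g hg hgΓ using hemb
  have himage : ∀ (e e' : V → ℕ) (σ : Equiv.Perm ℕ), (∀ v, σ (e v) = e' v) →
      Finset.univ.image e' = (Finset.univ.image e).map σ.toEmbedding := by
    intro e e' σ h
    ext x
    simp only [Finset.mem_image, Finset.mem_univ, true_and, Finset.mem_map_equiv]
    constructor
    · rintro ⟨v, rfl⟩; exact ⟨v, by rw [← h]; simp⟩
    · rintro ⟨v, hv⟩; exact ⟨v, by rw [← h, hv]; simp⟩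
  let F' : SimpleGraph V → ℚ := fun Γ => F (Finset.univ.image (g Γ))
  have key : ∀ (e : V → ℕ), Function.Injective e → ∀ (Γ : SimpleGraph V) (S : Finset V),
      bit.comap e = Γ ∆ cut (S : Set V) → F (Finset.univ.image e) = F' Γ := by
    intro e he Γ S h
    obtain ⟨σ, hσ, hσe⟩ := extend_switch (hg Γ) he S (by rw [hgΓ]; exact h)
    rw [himage _ _ σ hσe, hF σ hσ]
  have key1 : ∀ (e : V → ℕ), Function.Injective e → F (Finset.univ.image e) = F' (bit.comap e) := by
    intro e he
    refine key e he _ ∅ ?_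
    have : cut ((∅ : Finset V) : Set V) = ⊥ := by
      ext a b
      simp [cut]
    rw [this, symmDiff_bot]
  have key2 : ∀ (Γ : SimpleGraph V) (v : V), F' (Γ ∆ star v) = F' Γ := by
    intro Γ v
    refine key (g (Γ ∆ star v)) (hg _) Γ {v} ?_
    rw [hgΓ, star_eq_cut, Finset.coe_singleton]
  let c : SimpleGraph V → ℚ := fun H => ∑ Γ' : SimpleGraph V, F' Γ' * chi H Γ'
  have hc : ∀ H, c H ≠ 0 → IsEven H := by
    intro H hH
    by_contra hcon
    apply hH
    simp only [IsEven, not_forall] at hcon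
    obtain ⟨v, hv⟩ := hcon
    have hv' : sgnDeg H v = -1 := (sgnDeg_eq H v).resolve_left hv
    have : c H = ∑ Γ : SimpleGraph V, F' (Γ ∆ star v) * chi H (Γ ∆ star v) := by
      symm
      refine Fintype.sum_equiv ⟨fun Γ => Γ ∆ star v, fun Γ => Γ ∆ star v, ?_, ?_⟩ _ _ ?_
      · intro Γ; simp
      · intro Γ; simp
      · intro Γ; rfl
    simp only [key2, chi_symmDiff, chi_star, hv'] at this
    simp only [mul_neg, mul_one, Finset.sum_neg_distrib] at this
    have h2 : c H = - c H := this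
    linarith
  have hMpos : (0 : ℚ) < Fintype.card (SimpleGraph V) := by
    have : 0 < Fintype.card (SimpleGraph V) := Fintype.card_pos
    exact_mod_cast this
  have hPpos : (0 : ℚ) < Fintype.card (V ≃ V) := by
    have : 0 < Fintype.card (V ≃ V) := Fintype.card_pos_iff.mpr ⟨Equiv.refl V⟩
    exact_mod_cast this
  refine ⟨fun H => c H / (Fintype.card (SimpleGraph V) * Fintype.card (V ≃ V)), ?_, ?_⟩
  · intro H hH
    apply hc
    intro h0
    apply hH
    simp only [h0, zero_div]
  · intro s hs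
    obtain ⟨e₀, h₀⟩ := exists_mem_bij hs
    have h₀' := mem_bij.mp h₀
    have h1 : ∀ π : V ≃ V, F s = F' ((bit.comap e₀).comap π) := by
      intro π
      have h2 : Finset.univ.image (e₀ ∘ π) = s := by
        rw [← h₀'.2]
        ext x
        simp only [Finset.mem_image, Finset.mem_univ, true_and, Function.comp]
        constructor
        · rintro ⟨a, rfl⟩; exact ⟨π a, rfl⟩
        · rintro ⟨a, rfl⟩; exact ⟨π.symm a, by simp⟩
      rw [← h2, key1 _ (h₀'.1.comp π.injective)]
      rfl
    have h3 : (Fintype.card (SimpleGraph V) : ℚ) * ((Fintype.card (V ≃ V) : ℚ) * F s) =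
        ∑ H : SimpleGraph V, c H * X H s := by
      calc (Fintype.card (SimpleGraph V) : ℚ) * ((Fintype.card (V ≃ V) : ℚ) * F s)
          = ∑ π : V ≃ V, (Fintype.card (SimpleGraph V) : ℚ) * F s := by
            rw [Finset.sum_const, Finset.card_univ, nsmul_eq_mul]; ring
        _ = ∑ π : V ≃ V, ∑ H : SimpleGraph V, c H * chi H ((bit.comap e₀).comap π) := by
            refine Finset.sum_congr rfl fun π _ => ?_
            rw [h1 π, fourier F']
        _ = ∑ H : SimpleGraph V, c H * X H s := by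
            rw [Finset.sum_comm]
            refine Finset.sum_congr rfl fun H _ => ?_
            rw [X_base h₀, Finset.mul_sum]
    have h4 : ∑ H : SimpleGraph V, c H / (Fintype.card (SimpleGraph V) * Fintype.card (V ≃ V)) * X H s
        = (∑ H : SimpleGraph V, c H * X H s) / (Fintype.card (SimpleGraph V) * Fintype.card (V ≃ V)) := by
      rw [Finset.sum_div]
      exact Finset.sum_congr rfl fun H _ => by ring
    rw [h4, ← h3]
    field_simp

end

/-- The same with a finitely supported family. -/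
lemma expand' (V : Type) [Fintype V] (F : Finset ℕ → ℚ)
    (hF : ∀ σ, IsSw σ → ∀ s, F (s.map σ.toEmbedding) = F s) :
    ∃ c : SimpleGraph V →₀ ℚ, (∀ H ∈ c.support, IsEven H) ∧
      ∀ s : Finset ℕ, s.card = Fintype.card V → F s = ∑ H ∈ c.support, c H * X H s := by
  obtain ⟨c, h1, h2⟩ := expand V F hF
  refine ⟨Finsupp.equivFunOnFinite.symm c, ?_, ?_⟩
  · intro H hH
    rw [Finsupp.mem_support_iff] at hH
    exact h1 H (by simpa using hH)
  · intro s hs
    rw [h2 s hs]
    symm
    refine Finset.sum_subset (Finset.subset_univ _) ?_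
    intro H _ hH
    rw [Finsupp.notMem_support_iff] at hH
    rw [hH, zero_mul]

/-- Linear independence of the functions attached to pairwise non-isomorphic graphs. -/
lemma lin_indep {I : Type} (t : Finset I) (V : I → Type) [∀ i, Fintype (V i)]
    (H : ∀ i, SimpleGraph (V i)) (hH : ∀ i ∈ t, ∀ j ∈ t, Nonempty (H i ≃g H j) → i = j)
    (p : I → ℚ) (h : ∀ s : Finset ℕ, ∑ i ∈ t, p i * X (H i) s = 0) : ∀ i ∈ t, p i = 0 := by
  intro i₀ hi₀
  have h1 : ∀ Γ : SimpleGraph (V i₀), ∑ i ∈ t, p i * ∑ π : V i ≃ V i₀, chi ((H i).comap π.symm) Γ = 0 := by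
    intro Γ
    obtain ⟨e₀, he₀, hΓ⟩ := exists_embedding extProp_bit Γ
    have h₀ : e₀ ∈ bij (V i₀) (Finset.univ.image e₀) := mem_bij.mpr ⟨he₀, rfl⟩
    rw [← h (Finset.univ.image e₀)]
    refine Finset.sum_congr rfl fun i _ => ?_
    rw [X_base h₀, hΓ]
    congr 1
    refine Finset.sum_congr rfl fun π _ => ?_
    rw [← chi_comap π]
    congr 1
    ext a b
    simp
  have h2 : ∑ i ∈ t, p i * ∑ π : V i ≃ V i₀, ∑ Γ : SimpleGraph (V i₀), chi ((H i).comap π.symm) Γ * chi (H i₀) Γ = 0 := by
    calc ∑ i ∈ t, p i * ∑ π : V i ≃ V i₀, ∑ Γ : SimpleGraph (V i₀), chi ((H i).comap π.symm) Γ * chi (H i₀) Γ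
        = ∑ Γ : SimpleGraph (V i₀), (∑ i ∈ t, p i * ∑ π : V i ≃ V i₀, chi ((H i).comap π.symm) Γ) * chi (H i₀) Γ := by
          simp only [Finset.sum_mul, Finset.mul_sum]
          rw [Finset.sum_comm' (t' := t) (s' := fun _ => Finset.univ) (by simp)]
          refine Finset.sum_congr rfl fun i _ => ?_
          rw [Finset.sum_comm]
          refine Finset.sum_congr rfl fun π _ => ?_
          refine Finset.sum_congr rfl fun Γ _ => ?_
          ring
      _ = 0 := by
          simp [h1]
  simp only [chi_orth] at h2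
  rw [Finset.sum_eq_single_of_mem i₀ hi₀] at h2
  · have hpos : (0 : ℚ) < ∑ π : V i₀ ≃ V i₀, if (H i₀).comap π.symm = H i₀ then (Fintype.card (SimpleGraph (V i₀)) : ℚ) else 0 := by
      apply Finset.sum_pos'
      · intro π _
        split_ifs <;> positivity
      · refine ⟨Equiv.refl _, Finset.mem_univ _, ?_⟩
        rw [if_pos (by ext a b; simp)]
        have : 0 < Fintype.card (SimpleGraph (V i₀)) := Fintype.card_pos
        exact_mod_cast this
    exact (mul_eq_zero.mp h2).resolve_right hpos.ne'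
  · intro i hi hne
    rw [Finset.sum_eq_zero, mul_zero]
    intro π _
    rw [if_neg]
    intro heq
    apply hne
    apply hH i hi i₀ hi₀
    refine ⟨⟨π, ?_⟩⟩
    intro a b
    rw [← heq]
    simp

end Pool.Agent.Lib.MP_f0391a_al
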