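import Pool.Agent.Lib.MP_f0391a_al.Comp

set_option autoImplicit false

namespace Pool.Agent.Lib.MP_f0391a_al

open Classical symmDiff

/-- The ideal of power series all of whose squarefree coefficients vanish. -/
noncomputable def KI : Ideal (MvPowerSeries ℕ ℚ) where
  carrier := {f | ∀ s : ℕ →₀ ℕ, (∀ i, s i ≤ 1) → MvPowerSeries.coeff s f = 0}
  add_mem' := by
    intro a b ha hb s hs
    rw [map_add, ha s hs, hb s hs, add_zero]
  zero_mem' := by
    intro s _
    simp
  smul_mem' := by
    intro c f hf s hs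
    rw [smul_eq_mul, MvPowerSeries.coeff_mul]
    refine Finset.sum_eq_zero fun p hp => ?_
    rw [Finset.HasAntidiagonal.mem_antidiagonal] at hp
    rw [hf p.2, mul_zero]
    intro i
    have := congrArg (fun m => m i) hp
    simp only [Finsupp.add_apply] at this
    have := hs i
    omega

/-- the squarefree exponent with given support. -/
noncomputable def ind (t : Finset ℕ) : ℕ →₀ ℕ := Finsupp.indicator t (fun _ _ => 1)

lemma ind_apply (t : Finset ℕ) (i : ℕ) : ind t i = if i ∈ t then 1 else 0 := by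
  unfold ind
  rw [Finsupp.indicator_apply]
  split_ifs <;> rfl

lemma ind_le (t : Finset ℕ) (i : ℕ) : ind t i ≤ 1 := by
  rw [ind_apply]; split_ifs <;> simp

lemma support_ind (t : Finset ℕ) : (ind t).support = t := by
  ext i
  rw [Finsupp.mem_support_iff, ind_apply]
  split_ifs with h <;> simp [h]

lemma ind_support {m : ℕ →₀ ℕ} (hm : ∀ i, m i ≤ 1) : ind m.support = m := by
  ext i
  rw [ind_apply]
  have := hm i
  split_ifs with h
  · rw [Finsupp.mem_support_iff] at h; omega
  · rw [Finsupp.notMem_support_iff] at h; exact h.symm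

lemma coeff_mul_ind (f g : MvPowerSeries ℕ ℚ) (s : Finset ℕ) :
    MvPowerSeries.coeff (ind s) (f * g) =
      ∑ t ∈ s.powerset, MvPowerSeries.coeff (ind t) f * MvPowerSeries.coeff (ind (s \ t)) g := by
  rw [MvPowerSeries.coeff_mul]
  have hsq : ∀ p ∈ Finset.HasAntidiagonal.antidiagonal (ind s), (∀ i, p.1 i ≤ 1) ∧ (∀ i, p.2 i ≤ 1) ∧
      p.1.support ⊆ s ∧ p.2 = ind (s \ p.1.support) := by
    intro p hp
    rw [Finset.HasAntidiagonal.mem_antidiagonal] at hp
    have h : ∀ i, p.1 i + p.2 i = if i ∈ s then 1 else 0 := by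
      intro i
      rw [← ind_apply, ← hp]
      rfl
    refine ⟨?_, ?_, ?_, ?_⟩
    · intro i; have := h i; split_ifs at this <;> omega
    · intro i; have := h i; split_ifs at this <;> omega
    · intro i hi
      by_contra his
      have := h i
      rw [if_neg his] at this
      rw [Finsupp.mem_support_iff] at hi
      omega
    · ext i
      have := h i
      rw [ind_apply]
      simp only [Finset.mem_sdiff, Finsupp.mem_support_iff, not_not]
      by_cases his : i ∈ s
      · rw [if_pos his] at this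
        by_cases h0 : p.1 i = 0
        · rw [if_pos ⟨his, h0⟩]; omega
        · rw [if_neg (fun hh => h0 hh.2)]; omega
      · rw [if_neg his] at this
        rw [if_neg (fun hh => his hh.1)]; omega
  refine Finset.sum_bij' (fun p _ => p.1.support) (fun t _ => (ind t, ind (s \ t))) ?_ ?_ ?_ ?_ ?_
  · intro p hp
    rw [Finset.mem_powerset]
    exact (hsq p hp).2.2.1
  · intro t ht
    rw [Finset.mem_powerset] at ht
    rw [Finset.HasAntidiagonal.mem_antidiagonal]
    ext i
    simp only [Finsupp.add_apply, ind_apply, Finset.mem_sdiff]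
    by_cases hi : i ∈ t
    · simp [hi, ht hi]
    · simp [hi]
  · intro p hp
    obtain ⟨h1, h2, h3, h4⟩ := hsq p hp
    apply Prod.ext
    · exact ind_support h1
    · exact h4.symm
  · intro t _
    exact support_ind t
  · intro p hp
    obtain ⟨h1, h2, h3, h4⟩ := hsq p hp
    rw [ind_support h1, ← h4]

lemma mem_KI_iff (f : MvPowerSeries ℕ ℚ) :
    f ∈ KI ↔ ∀ s : Finset ℕ, MvPowerSeries.coeff (ind s) f = 0 := by
  constructor
  · intro h s
    exact h (ind s) (ind_le s)
  · intro h m hm
    rw [← ind_support hm]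
    exact h _

lemma mk_eq_iff (f g : MvPowerSeries ℕ ℚ) :
    Ideal.Quotient.mk KI f = Ideal.Quotient.mk KI g ↔
      ∀ s : Finset ℕ, MvPowerSeries.coeff (ind s) f = MvPowerSeries.coeff (ind s) g := by
  rw [Ideal.Quotient.eq, mem_KI_iff]
  exact forall_congr' fun s => by rw [map_sub, sub_eq_zero]

section
variable {V W : Type} [Fintype V] [Fintype W]

/-- The power series attached to a finite graph. -/
noncomputable def XP (H : SimpleGraph V) : MvPowerSeries ℕ ℚ :=
  fun m => if ∀ i, m i ≤ 1 then X H m.support else 0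

lemma coeff_XP (H : SimpleGraph V) (m : ℕ →₀ ℕ) :
    MvPowerSeries.coeff m (XP H) = if ∀ i, m i ≤ 1 then X H m.support else 0 := rfl

lemma coeff_ind_XP (H : SimpleGraph V) (s : Finset ℕ) :
    MvPowerSeries.coeff (ind s) (XP H) = X H s := by
  rw [coeff_XP, if_pos (ind_le s), support_ind]

lemma mk_XP_iso {H : SimpleGraph V} {H' : SimpleGraph W} (φ : H ≃g H') :
    Ideal.Quotient.mk KI (XP H) = Ideal.Quotient.mk KI (XP H') := by
  rw [mk_eq_iff]
  intro s
  rw [coeff_ind_XP, coeff_ind_XP, X_iso φ]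

lemma mk_XP_sum (H : SimpleGraph V) (H' : SimpleGraph W) :
    Ideal.Quotient.mk KI (XP (H ⊕g H')) =
      Ideal.Quotient.mk KI (XP H) * Ideal.Quotient.mk KI (XP H') := by
  rw [← map_mul, mk_eq_iff]
  intro s
  rw [coeff_ind_XP, coeff_mul_ind, ← X_sum]
  exact Finset.sum_congr rfl fun t _ => by rw [coeff_ind_XP, coeff_ind_XP]

lemma mk_XP_empty [IsEmpty V] (H : SimpleGraph V) :
    Ideal.Quotient.mk KI (XP H) = 1 := by
  rw [← map_one (Ideal.Quotient.mk KI), mk_eq_iff]
  intro s
  rw [coeff_ind_XP, MvPowerSeries.coeff_one]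
  by_cases hs : s = ∅
  · subst hs
    have h0 : (fun v : V => (isEmptyElim v : ℕ)) ∈ bij V (∅ : Finset ℕ) := by
      rw [mem_bij]
      refine ⟨fun a => isEmptyElim a, ?_⟩
      simp
    rw [if_pos (by ext i; simp [ind_apply])]
    rw [X_base h0]
    rw [Fintype.sum_eq_single (Equiv.refl V)]
    · have : ((bit.comap (fun v : V => (isEmptyElim v : ℕ))).comap (Equiv.refl V)) = ⊥ := by
        ext a b
        exact isEmptyElim a
      rw [this, chi_bot]
    · intro π hπ
      exact absurd (Equiv.ext fun a => isEmptyElim a) hπ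
  · rw [if_neg, X_eq_zero]
    · rw [Fintype.card_eq_zero]
      simpa using hs
    · intro h
      apply hs
      rw [← support_ind s, h]
      rfl

lemma sum_eq_card {m : ℕ →₀ ℕ} (hm : ∀ i, m i ≤ 1) : m.sum (fun _ e => e) = m.support.card := by
  rw [Finsupp.sum, Finset.card_eq_sum_ones]
  refine Finset.sum_congr rfl fun i hi => ?_
  have := hm i
  rw [Finsupp.mem_support_iff] at hi
  omega

lemma XP_homog (H : SimpleGraph V) (m : ℕ →₀ ℕ) (h : MvPowerSeries.coeff m (XP H) ≠ 0) :
    m.sum (fun _ e => e) = Fintype.card V := by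
  rw [coeff_XP] at h
  split_ifs at h with hm
  · rw [sum_eq_card hm]
    by_contra hcon
    exact h (X_eq_zero hcon)
  · exact absurd rfl h

lemma XP_inv {H : SimpleGraph V} (hH : IsEven H) (σ : Equiv.Perm ℕ) (hσ : IsSw σ) (m : ℕ →₀ ℕ) :
    MvPowerSeries.coeff (Finsupp.equivMapDomain σ m) (XP H) = MvPowerSeries.coeff m (XP H) := by
  rw [coeff_XP, coeff_XP]
  have h1 : (∀ i, Finsupp.equivMapDomain σ m i ≤ 1) ↔ ∀ i, m i ≤ 1 := by
    simp only [Finsupp.equivMapDomain_apply]
    constructor
    · intro h i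
      have := h (σ i)
      simpa using this
    · intro h i
      exact h _
  have h2 : (Finsupp.equivMapDomain σ m).support = m.support.map σ.toEmbedding := rfl
  by_cases hm : ∀ i, m i ≤ 1
  · rw [if_pos hm, if_pos (h1.2 hm), h2]
    obtain ⟨S, hS⟩ := hσ
    exact X_switch hH σ S hS _
  · rw [if_neg hm, if_neg (fun h => hm (h1.1 h))]

end

lemma isSw_iff (σ : Equiv.Perm ℕ) : IsSw σ ↔ ∃ S : Set ℕ, ∀ i j : ℕ, i ≠ j →
          ((Nat.testBit (σ j) (σ i) = true ∨ Nat.testBit (σ i) (σ j) = true) ↔
            ((Nat.testBit j i = true ∨ Nat.testBit i j = true) ↔ (i ∈ S ↔ j ∈ S))) := by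
  unfold IsSw
  refine exists_congr fun S => forall_congr' fun i => forall_congr' fun j => ?_
  refine forall_congr' fun hij => ?_
  have h1 : bit.Adj (σ i) (σ j) ↔ (Nat.testBit (σ j) (σ i) = true ∨ Nat.testBit (σ i) (σ j) = true) :=
    ⟨fun h => h.2, fun h => ⟨fun h' => hij (σ.injective h'), h⟩⟩
  have h2 : bit.Adj i j ↔ (Nat.testBit j i = true ∨ Nat.testBit i j = true) :=
    ⟨fun h => h.2, fun h => ⟨hij, h⟩⟩
  rw [h1, h2]

/-- The set of representatives: connected graphs on `Fin n` with all degrees even. -/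
abbrev CE : Type := {p : Σ n : ℕ, SimpleGraph (Fin n) // p.2.Connected ∧ IsEven p.2}

instance ceSetoid : Setoid CE where
  r p q := Nonempty (p.1.2 ≃g q.1.2)
  iseqv := ⟨fun _ => ⟨SimpleGraph.Iso.refl⟩, fun ⟨φ⟩ => ⟨φ.symm⟩, fun ⟨φ⟩ ⟨ψ⟩ => ⟨φ.trans ψ⟩⟩

/-- isomorphism classes of Eulerian graphs -/
abbrev Eul : Type := Quotient ceSetoid

/-- number of vertices of the representative -/
noncomputable def eulN (i : Eul) : ℕ := (Quotient.out i).1.1
/-- the representative -/
noncomputable def eulG (i : Eul) : SimpleGraph (Fin (eulN i)) := (Quotient.out i).1.2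

lemma eulG_conn (i : Eul) : (eulG i).Connected := (Quotient.out i).2.1
lemma eulG_even (i : Eul) : IsEven (eulG i) := (Quotient.out i).2.2

lemma eul_eq_of_iso {i j : Eul} (h : Nonempty (eulG i ≃g eulG j)) : i = j := by
  rw [← Quotient.out_eq i, ← Quotient.out_eq j]
  exact Quotient.sound h

lemma exists_eul {V : Type} [Fintype V] {H : SimpleGraph V} (hc : H.Connected) (he : IsEven H) :
    ∃ i : Eul, Nonempty (H ≃g eulG i) := by
  let e := Fintype.equivFin V
  have hiso : H ≃g H.comap e.symm := (SimpleGraph.Iso.comap e.symm H).symm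
  have hc' : (H.comap e.symm).Connected := (SimpleGraph.Iso.connected_iff hiso).1 hc
  have he' : IsEven (H.comap e.symm) := by
    intro v
    rw [← he (e.symm v)]
    unfold sgnDeg
    rw [← e.symm.prod_comp]
    rfl
  refine ⟨Quotient.mk _ ⟨⟨_, H.comap e.symm⟩, hc', he'⟩, ?_⟩
  obtain ⟨φ⟩ : Nonempty ((Quotient.out (Quotient.mk ceSetoid ⟨⟨_, H.comap e.symm⟩, hc', he'⟩)).1.2 ≃g H.comap e.symm) :=
    Quotient.mk_out (s := ceSetoid) ⟨⟨_, H.comap e.symm⟩, hc', he'⟩
  exact ⟨hiso.trans φ.symm⟩

/-- the generators -/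
noncomputable def gen (i : Eul) : MvPowerSeries ℕ ℚ ⧸ KI := Ideal.Quotient.mk KI (XP (eulG i))

lemma mk_XP_mem (n : ℕ) : ∀ (V : Type) (_ : Fintype V) (H : SimpleGraph V), IsEven H →
    Fintype.card V = n →
    Ideal.Quotient.mk KI (XP H) ∈ Algebra.adjoin ℚ (Set.range gen) := by
  induction n using Nat.strong_induction_on with
  | _ n ih =>
    intro V _ H hH hn
    by_cases hne : Nonempty V
    · by_cases hc : H.Connected
      · obtain ⟨i, ⟨φ⟩⟩ := exists_eul hc hH
        rw [mk_XP_iso φ]
        exact Algebra.subset_adjoin ⟨i, rfl⟩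
      · obtain ⟨A, B, _, _, HA, HB, ⟨φ⟩, h1, h2, h3, h4⟩ := exists_split hH hne hc
        rw [mk_XP_iso φ, mk_XP_sum]
        refine Subalgebra.mul_mem _ ?_ ?_
        · exact ih (Fintype.card A) (by omega) A _ HA h1 rfl
        · exact ih (Fintype.card B) (by omega) B _ HB h2 rfl
    · rw [not_nonempty_iff] at hne
      rw [mk_XP_empty]
      exact Subalgebra.one_mem _

/-- monomials in the generators come from graphs. -/
lemma exists_graph_of_monomial (d : Eul →₀ ℕ) :
    ∃ (V : Type) (_ : Fintype V) (H : SimpleGraph V),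
      (d.prod fun i k => gen i ^ k) = Ideal.Quotient.mk KI (XP H) ∧
      ∀ j, cnt (eulG j) H = d j * cnt (eulG j) (eulG j) := by
  induction d using Finsupp.induction_linear with
  | zero =>
    refine ⟨Empty, inferInstance, ⊥, ?_, ?_⟩
    · rw [Finsupp.prod_zero_index, mk_XP_empty]
    · intro j
      simp only [Finsupp.coe_zero, Pi.zero_apply, zero_mul]
      unfold cnt
      have : CEmb (eulG j) (⊥ : SimpleGraph Empty) = ∅ := by
        rw [Set.eq_empty_iff_forall_notMem]
        intro f _
        obtain ⟨w⟩ := (eulG_conn j).nonempty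
        exact (f w).elim
      rw [this, Set.ncard_empty]
  | add f g hf hg =>
    obtain ⟨V, _, H, h1, h2⟩ := hf
    obtain ⟨V', _, H', h1', h2'⟩ := hg
    refine ⟨V ⊕ V', inferInstance, H ⊕g H', ?_, ?_⟩
    · rw [mk_XP_sum, ← h1, ← h1', Finsupp.prod_add_index']
      · intro i; exact pow_zero _
      · intro i a b; exact pow_add _ _ _
    · intro j
      rw [cnt_sum (eulG_conn j), h2, h2', Finsupp.add_apply, add_mul]
  | single i k =>
    suffices hk : ∃ (V : Type) (_ : Fintype V) (H : SimpleGraph V),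
      gen i ^ k = Ideal.Quotient.mk KI (XP H) ∧
      ∀ j, cnt (eulG j) H = (Finsupp.single i k) j * cnt (eulG j) (eulG j) by
      obtain ⟨V, _, H, h1, h2⟩ := hk
      refine ⟨V, inferInstance, H, ?_, h2⟩
      rw [← h1]
      exact Finsupp.prod_single_index (h := fun i k => gen i ^ k) (pow_zero _)
    induction k with
    | zero =>
      refine ⟨Empty, inferInstance, ⊥, ?_, ?_⟩
      · rw [pow_zero, mk_XP_empty]
      · intro j
        simp only [Finsupp.single_zero, Finsupp.coe_zero, Pi.zero_apply, zero_mul]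
        unfold cnt
        have : CEmb (eulG j) (⊥ : SimpleGraph Empty) = ∅ := by
          rw [Set.eq_empty_iff_forall_notMem]
          intro f _
          obtain ⟨w⟩ := (eulG_conn j).nonempty
          exact (f w).elim
        rw [this, Set.ncard_empty]
    | succ k ih =>
      obtain ⟨V, _, H, h1, h2⟩ := ih
      refine ⟨V ⊕ Fin (eulN i), inferInstance, H ⊕g eulG i, ?_, ?_⟩
      · rw [mk_XP_sum, ← h1, pow_succ]
        rfl
      · intro j
        rw [cnt_sum (eulG_conn j), h2]
        by_cases hij : i = j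
        · subst hij
          simp only [Finsupp.single_eq_same]
          ring
        · have h0 : cnt (eulG j) (eulG i) = 0 := by
            by_contra hcon
            exact hij (eul_eq_of_iso (iso_of_cnt_ne_zero (eulG_conn j) (eulG_conn i) hcon)).symm
          rw [h0]
          simp [hij]

lemma gen_algInd : AlgebraicIndependent ℚ gen := by
  rw [algebraicIndependent_iff]
  intro p hp
  have hex := exists_graph_of_monomial
  choose V instV H h1 h2 using hex
  rw [MvPolynomial.aeval_def, MvPolynomial.eval₂_eq] at hp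
  have hp2 : Ideal.Quotient.mk KI (∑ d ∈ p.support, p.coeff d • XP (H d)) = 0 := by
    rw [← hp, map_sum]
    refine Finset.sum_congr rfl fun d _ => ?_
    have h3 : ∏ i ∈ d.support, gen i ^ d i = Ideal.Quotient.mk KI (XP (H d)) := h1 d
    rw [h3, ← Algebra.smul_def]
    rfl
  rw [Ideal.Quotient.eq_zero_iff_mem, mem_KI_iff] at hp2
  have hp3 : ∀ s : Finset ℕ, ∑ d ∈ p.support, p.coeff d * X (H d) s = 0 := by
    intro s
    rw [← hp2 s, map_sum]
    refine Finset.sum_congr rfl fun d _ => ?_
    rw [map_smul, coeff_ind_XP, smul_eq_mul]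
  have hli := lin_indep p.support V H (by
    intro d _ d' _ ⟨φ⟩
    ext j
    have h4 := cnt_iso (eulG j) φ
    rw [h2, h2] at h4
    exact Nat.eq_of_mul_eq_mul_right (cnt_self_pos (eulG j)) h4) (fun d => p.coeff d) hp3
  ext d
  rw [MvPolynomial.coeff_zero]
  by_cases hd : d ∈ p.support
  · exact hli d hd
  · exact MvPolynomial.notMem_support_iff.mp hd

theorem main :
  ∀ K : Ideal (MvPowerSeries ℕ ℚ),
    K = Ideal.span {f : MvPowerSeries ℕ ℚ |
      ∀ s : ℕ →₀ ℕ, (∀ i, s i ≤ 1) → MvPowerSeries.coeff s f = 0} →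
  ∀ T : Set (MvPowerSeries ℕ ℚ),
    T = {f : MvPowerSeries ℕ ℚ |
      (∀ σ : Equiv.Perm ℕ,
        (∃ S : Set ℕ, ∀ i j : ℕ, i ≠ j →
          ((Nat.testBit (σ j) (σ i) = true ∨ Nat.testBit (σ i) (σ j) = true) ↔
            ((Nat.testBit j i = true ∨ Nat.testBit i j = true) ↔ (i ∈ S ↔ j ∈ S)))) →
        ∀ s : ℕ →₀ ℕ,
          MvPowerSeries.coeff (Finsupp.equivMapDomain σ s) f = MvPowerSeries.coeff s f) ∧
      ∃ N : ℕ, ∀ s : ℕ →₀ ℕ, N ≤ s.sum (fun _ e => e) → MvPowerSeries.coeff s f = 0} →
  ∃ (ι : Type) (x : ι → MvPowerSeries ℕ ℚ ⧸ K),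
    (∀ i, ∃ d : ℕ, ∃ f ∈ T, Ideal.Quotient.mk K f = x i ∧
        ∀ s : ℕ →₀ ℕ, MvPowerSeries.coeff s f ≠ 0 → s.sum (fun _ e => e) = d) ∧
    AlgebraicIndependent ℚ x ∧
    Algebra.adjoin ℚ (Set.range x) = Algebra.adjoin ℚ (Ideal.Quotient.mk K '' T) := by
  intro K hK T hT
  have hKI : K = KI := by
    rw [hK]
    exact Ideal.span_eq KI
  clear hK
  subst hKI
  have hmem : ∀ i, XP (eulG i) ∈ T := by
    intro i
    rw [hT]
    refine ⟨?_, Fintype.card (Fin (eulN i)) + 1, ?_⟩
    · intro σ hσ s
      exact XP_inv (eulG_even i) σ ((isSw_iff σ).2 hσ) s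
    · intro s hs
      by_contra hcon
      have := XP_homog _ s hcon
      omega
  refine ⟨Eul, gen, ?_, gen_algInd, ?_⟩
  · intro i
    exact ⟨Fintype.card (Fin (eulN i)), XP (eulG i), hmem i, rfl, XP_homog (eulG i)⟩
  · apply le_antisymm
    · apply Algebra.adjoin_mono
      rintro _ ⟨i, rfl⟩
      exact ⟨XP (eulG i), hmem i, rfl⟩
    · apply Algebra.adjoin_le
      rintro _ ⟨f, hf, rfl⟩
      rw [hT] at hf
      obtain ⟨hf1, N, hN⟩ := hf
      have hF := fun n : ℕ => expand' (Fin n) (fun s => MvPowerSeries.coeff (ind s) f) (by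
        intro σ hσ s
        have h6 := hf1 σ ((isSw_iff σ).1 hσ) (ind s)
        have h7 : ind (s.map σ.toEmbedding) = Finsupp.equivMapDomain σ (ind s) := by
          ext i
          rw [ind_apply, Finsupp.equivMapDomain_apply, ind_apply]
          simp only [Finset.mem_map_equiv]
        change MvPowerSeries.coeff (ind (s.map σ.toEmbedding)) f = MvPowerSeries.coeff (ind s) f
        rw [h7]
        exact h6)
      choose c hc1 hc2 using hF
      have hc3 : ∀ (n : ℕ) (s : Finset ℕ), s.card = n → MvPowerSeries.coeff (ind s) f =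
          ∑ H ∈ (c n).support, c n H * X H s := fun n s hs =>
        hc2 n s (hs.trans (Fintype.card_fin n).symm)
      have hfeq : Ideal.Quotient.mk KI f = Ideal.Quotient.mk KI
          (∑ n ∈ Finset.range N, ∑ H ∈ (c n).support, c n H • XP H) := by
        rw [mk_eq_iff]
        intro s
        rw [map_sum]
        have h1 : ∀ n, MvPowerSeries.coeff (ind s) (∑ H ∈ (c n).support, c n H • XP H) =
            if s.card = n then MvPowerSeries.coeff (ind s) f else 0 := by
          intro n
          rw [map_sum]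
          by_cases hn : s.card = n
          · rw [if_pos hn, hc3 n s hn]
            refine Finset.sum_congr rfl fun H _ => ?_
            rw [map_smul, coeff_ind_XP, smul_eq_mul]
          · rw [if_neg hn]
            refine Finset.sum_eq_zero fun H _ => ?_
            rw [map_smul, coeff_ind_XP, X_eq_zero (by rw [Fintype.card_fin]; exact hn), smul_zero]
        simp only [h1]
        rw [Finset.sum_ite_eq]
        split_ifs with h
        · rfl
        · apply hN
          rw [sum_eq_card (ind_le s), support_ind]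
          simpa using h
      rw [SetLike.mem_coe, hfeq, map_sum]
      refine Subalgebra.sum_mem _ fun n _ => ?_
      rw [map_sum]
      refine Subalgebra.sum_mem _ fun H hH => ?_
      have h5 : Ideal.Quotient.mk KI (c n H • XP H) = c n H • Ideal.Quotient.mk KI (XP H) := rfl
      rw [h5]
      exact Subalgebra.smul_mem _ (mk_XP_mem n (Fin n) _ H (hc1 n H hH) (Fintype.card_fin n)) _

end Pool.Agent.Lib.MP_f0391a_al
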