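import Mathlib

set_option autoImplicit false

namespace Pool.Agent.Lib.MP_f0391a_al

open Order

/-- The graph on `ℕ` with the BIT predicate as adjacency. -/
def bit : SimpleGraph ℕ where
  Adj i j := i ≠ j ∧ (Nat.testBit j i = true ∨ Nat.testBit i j = true)
  symm := ⟨fun _ _ h => ⟨h.1.symm, h.2.symm⟩⟩
  loopless := ⟨fun _ h => h.1 rfl⟩

/-- The extension property characterising the random graph. -/
def ExtProp (G : SimpleGraph ℕ) : Prop :=
  ∀ U V : Finset ℕ, Disjoint U V → ∀ W : Finset ℕ,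
    ∃ z, z ∉ W ∧ (∀ u ∈ U, G.Adj z u) ∧ ∀ v ∈ V, ¬ G.Adj z v

lemma extProp_bit : ExtProp bit := by
  intro U V hUV W
  set M := (U ∪ V ∪ W).sup id + 1 with hM
  have hlt : ∀ u ∈ U ∪ V ∪ W, u < M := by
    intro u hu
    have : id u ≤ (U ∪ V ∪ W).sup id := Finset.le_sup hu
    simp only [id] at this
    omega
  let f : Fin (M + 1) → Bool := fun i => decide ((i : ℕ) ∈ U ∨ (i : ℕ) = M)
  have hbit : ∀ i, i < M → Nat.testBit (Nat.ofBits f) i = decide (i ∈ U) := by
    intro i hi
    rw [Nat.testBit_ofBits_lt f i (by omega)]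
    simp only [f]
    have : i ≠ M := by omega
    simp [this]
  have hbig : M < Nat.ofBits f := by
    by_contra hcon
    push Not at hcon
    have h1 : Nat.testBit (Nat.ofBits f) M = true := by
      rw [Nat.testBit_ofBits_lt f M (by omega)]
      simp [f]
    have h2 : Nat.ofBits f < 2 ^ M := lt_of_le_of_lt hcon Nat.lt_two_pow_self
    rw [Nat.testBit_lt_two_pow h2] at h1
    exact absurd h1 (by simp)
  have hback : ∀ i, i < M → Nat.testBit i (Nat.ofBits f) = false := by
    intro i hi
    apply Nat.testBit_lt_two_pow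
    calc i < M := hi
      _ < Nat.ofBits f := hbig
      _ < 2 ^ (Nat.ofBits f) := Nat.lt_two_pow_self
  refine ⟨Nat.ofBits f, ?_, ?_, ?_⟩
  · intro h
    have := hlt _ (Finset.mem_union_right _ h)
    omega
  · intro u hu
    have hu' := hlt u (Finset.mem_union_left _ (Finset.mem_union_left _ hu))
    refine ⟨by omega, Or.inr ?_⟩
    rw [hbit u hu']
    simpa using hu
  · intro v hv
    have hv' := hlt v (Finset.mem_union_left _ (Finset.mem_union_right _ hv))
    rintro ⟨-, h | h⟩
    · rw [hback v hv'] at h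
      exact absurd h (by simp)
    · rw [hbit v hv'] at h
      have : v ∈ U := by simpa using h
      exact (Finset.disjoint_left.mp hUV this) hv

/-- Switching the graph `G` with respect to a set `S`. -/
def switch {V : Type*} (G : SimpleGraph V) (S : Set V) : SimpleGraph V where
  Adj i j := i ≠ j ∧ (G.Adj i j ↔ (i ∈ S ↔ j ∈ S))
  symm := ⟨fun i j h => ⟨h.1.symm, by rw [G.adj_comm, h.2]; tauto⟩⟩
  loopless := ⟨fun _ h => h.1 rfl⟩

lemma extProp_switch {G : SimpleGraph ℕ} (hG : ExtProp G) (S : Finset ℕ) :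
    ExtProp (switch G (S : Set ℕ)) := by
  classical
  intro U V hUV W
  obtain ⟨z, hzW, hzU, hzV⟩ := hG ((U \ S) ∪ (V ∩ S)) ((V \ S) ∪ (U ∩ S)) (by
    rw [Finset.disjoint_left] at hUV ⊢
    intro a ha hb
    simp only [Finset.mem_union, Finset.mem_sdiff, Finset.mem_inter] at ha hb
    have := @hUV a
    tauto) (W ∪ S ∪ U ∪ V)
  simp only [Finset.mem_union, not_or] at hzW
  refine ⟨z, hzW.1.1.1, ?_, ?_⟩
  · intro u hu
    refine ⟨fun h => hzW.1.2 (h ▸ hu), ?_⟩
    by_cases huS : u ∈ S
    · have := hzV u (by simp [hu, huS])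
      have h2 := hzW.1.1.2
      simp only [Finset.mem_coe]
      tauto
    · have := hzU u (by simp [hu, huS])
      have h2 := hzW.1.1.2
      simp only [Finset.mem_coe]
      tauto
  · intro v hv
    rintro ⟨-, h⟩
    by_cases hvS : v ∈ S
    · have := hzU v (by simp [hv, hvS])
      have h2 := hzW.1.1.2
      simp only [Finset.mem_coe] at h
      tauto
    · have := hzV v (by simp [hv, hvS])
      have h2 := hzW.1.1.2
      simp only [Finset.mem_coe] at h
      tauto

/-- Finite partial isomorphisms between two graphs. -/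
def PIso (G H : SimpleGraph ℕ) : Type :=
  { f : Finset (ℕ × ℕ) // ∀ p ∈ f, ∀ q ∈ f, (p.1 = q.1 ↔ p.2 = q.2) ∧ (G.Adj p.1 q.1 ↔ H.Adj p.2 q.2) }

instance (G H : SimpleGraph ℕ) : Preorder (PIso G H) := Subtype.preorder _

lemma PIso.exists_across {G H : SimpleGraph ℕ} (hH : ExtProp H) (f : PIso G H) (a : ℕ) :
    ∃ b : ℕ, ∀ p ∈ f.val, (p.1 = a ↔ p.2 = b) ∧ (G.Adj p.1 a ↔ H.Adj p.2 b) := by
  classical
  by_cases h : ∃ b, (a, b) ∈ f.val
  · obtain ⟨b, hb⟩ := h
    exact ⟨b, fun p hp ↦ f.prop _ hp _ hb⟩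
  obtain ⟨z, hzW, hzU, hzV⟩ := hH ((f.val.filter (fun p => G.Adj p.1 a)).image Prod.snd)
    ((f.val.filter (fun p => ¬ G.Adj p.1 a)).image Prod.snd) (by
      rw [Finset.disjoint_left]
      intro x hx hy
      simp only [Finset.mem_image, Finset.mem_filter] at hx hy
      obtain ⟨p, ⟨hp, hpa⟩, rfl⟩ := hx
      obtain ⟨q, ⟨hq, hqa⟩, hqp⟩ := hy
      have := (f.prop q hq p hp).1.2 hqp
      rw [this] at hqa
      exact hqa hpa) (f.val.image Prod.snd)
  refine ⟨z, fun p hp => ⟨?_, ?_⟩⟩
  · constructor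
    · rintro rfl
      exact absurd ⟨p.2, hp⟩ h
    · rintro rfl
      exact absurd (Finset.mem_image_of_mem _ hp) hzW
  · constructor
    · intro hpa
      exact (hzU p.2 (Finset.mem_image.mpr ⟨p, by simp [hp, hpa], rfl⟩)).symm
    · intro hpz
      by_contra hpa
      exact hzV p.2 (Finset.mem_image.mpr ⟨p, by simp [hp, hpa], rfl⟩) hpz.symm

/-- The inverse of a partial isomorphism. -/
def PIso.comm {G H : SimpleGraph ℕ} (f : PIso G H) : PIso H G := by
  classical
  exact ⟨f.val.image Prod.swap, by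
    intro p hp q hq
    simp only [Finset.mem_image] at hp hq
    obtain ⟨p', hp', rfl⟩ := hp
    obtain ⟨q', hq', rfl⟩ := hq
    have := f.prop p' hp' q' hq'
    simp only [Prod.fst_swap, Prod.snd_swap]
    tauto⟩

/-- Cofinal set of partial isomorphisms defined at `a`. -/
def PIso.left {G H : SimpleGraph ℕ} (hH : ExtProp H) (a : ℕ) : Cofinal (PIso G H) where
  carrier := {f | ∃ b : ℕ, (a, b) ∈ f.val}
  isCofinal f := by
    classical
    obtain ⟨b, a_b⟩ := PIso.exists_across hH f a
    refine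
      ⟨⟨insert (a, b) f.val, fun p hp q hq ↦ ?_⟩, ⟨b, Finset.mem_insert_self _ _⟩,
        Finset.subset_insert _ _⟩
    rw [Finset.mem_insert] at hp hq
    rcases hp with (rfl | pf) <;> rcases hq with (rfl | qf)
    · simp
    · have := a_b _ qf
      simp only
      rw [eq_comm (a := a), eq_comm (a := b), G.adj_comm, H.adj_comm]
      exact this
    · exact a_b _ pf
    · exact f.prop _ pf _ qf

/-- Cofinal set of partial isomorphisms with `b` in the range. -/
def PIso.right {G H : SimpleGraph ℕ} (hG : ExtProp G) (b : ℕ) : Cofinal (PIso G H) where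
  carrier := {f | ∃ a : ℕ, (a, b) ∈ f.val}
  isCofinal f := by
    classical
    obtain ⟨a, a_b⟩ := PIso.exists_across hG f.comm b
    have key : ∀ p ∈ f.val, (p.1 = a ↔ p.2 = b) ∧ (G.Adj p.1 a ↔ H.Adj p.2 b) := by
      intro p hp
      have := a_b p.swap (by
        simp only [PIso.comm]
        exact Finset.mem_image_of_mem _ hp)
      simp only [Prod.fst_swap, Prod.snd_swap] at this
      tauto
    refine
      ⟨⟨insert (a, b) f.val, fun p hp q hq ↦ ?_⟩, ⟨a, Finset.mem_insert_self _ _⟩,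
        Finset.subset_insert _ _⟩
    rw [Finset.mem_insert] at hp hq
    rcases hp with (rfl | pf) <;> rcases hq with (rfl | qf)
    · simp
    · have := key _ qf
      simp only
      rw [eq_comm (a := a), eq_comm (a := b), G.adj_comm, H.adj_comm]
      exact this
    · exact key _ pf
    · exact f.prop _ pf _ qf

/-- Back and forth: a finite partial isomorphism between graphs with the extension property
extends to a permutation that is an isomorphism. -/
theorem exists_perm {G H : SimpleGraph ℕ} (hG : ExtProp G) (hH : ExtProp H) (f : PIso G H) :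
    ∃ σ : Equiv.Perm ℕ, (∀ p ∈ f.val, σ p.1 = p.2) ∧ ∀ i j, G.Adj i j ↔ H.Adj (σ i) (σ j) := by
  classical
  let to_cofinal : ℕ ⊕ ℕ → Cofinal (PIso G H) := fun p ↦
    Sum.recOn p (PIso.left hH) (PIso.right hG)
  let I : Ideal (PIso G H) := idealOfCofinals f to_cofinal
  have hF : ∀ a, ∃ b, ∃ g ∈ I, (a, b) ∈ g.val := by
    intro a
    obtain ⟨g, ⟨b, hb⟩, hg⟩ := cofinal_meets_idealOfCofinals f to_cofinal (Sum.inl a)
    exact ⟨b, g, hg, hb⟩
  have hGf : ∀ b, ∃ a, ∃ g ∈ I, (a, b) ∈ g.val := by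
    intro b
    obtain ⟨g, ⟨a, hb⟩, hg⟩ := cofinal_meets_idealOfCofinals f to_cofinal (Sum.inr b)
    exact ⟨a, g, hg, hb⟩
  choose F hF using hF
  choose K hK using hGf
  have key : ∀ p q : ℕ × ℕ, (∃ g ∈ I, p ∈ g.val) → (∃ g ∈ I, q ∈ g.val) →
      (p.1 = q.1 ↔ p.2 = q.2) ∧ (G.Adj p.1 q.1 ↔ H.Adj p.2 q.2) := by
    rintro p q ⟨g, hg, hpg⟩ ⟨g', hg', hqg⟩
    rcases I.directed _ hg _ hg' with ⟨m, _, fm, gm⟩
    exact m.prop p (fm hpg) q (gm hqg)
  refine ⟨⟨F, K, ?_, ?_⟩, ?_, ?_⟩
  · intro a
    have := (key (K (F a), F a) (a, F a) (hK (F a)) (hF a)).1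
    simpa using this
  · intro b
    have := (key (K b, F (K b)) (K b, b) (hF (K b)) (hK b)).1
    simpa using this
  · intro p hp
    have hfI : f ∈ I := mem_idealOfCofinals f to_cofinal
    have := (key (p.1, F p.1) p (hF _) ⟨f, hfI, hp⟩).1
    simpa using this
  · intro i j
    exact (key (i, F i) (j, F j) (hF i) (hF j)).2

/-- Every finite graph embeds in a graph with the extension property. -/
theorem exists_embedding {H : SimpleGraph ℕ} (hH : ExtProp H) {V : Type} [Finite V]
    (Γ : SimpleGraph V) : ∃ g : V → ℕ, Function.Injective g ∧ H.comap g = Γ := by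
  classical
  obtain ⟨n, ⟨e⟩⟩ := Finite.exists_equiv_fin V
  suffices h : ∀ (n : ℕ) (Γ : SimpleGraph (Fin n)), ∃ g : Fin n → ℕ, Function.Injective g ∧
      ∀ i j, H.Adj (g i) (g j) ↔ Γ.Adj i j by
    obtain ⟨g, hg, hg2⟩ := h n (Γ.comap e.symm)
    refine ⟨g ∘ e, hg.comp e.injective, ?_⟩
    ext a b
    simp [hg2]
  intro n
  induction n with
  | zero => intro Γ; exact ⟨fun _ => 0, fun a => a.elim0, fun a => a.elim0⟩
  | succ n ih =>
    intro Γ
    obtain ⟨g, hg, hadj⟩ := ih (Γ.comap Fin.castSucc)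
    obtain ⟨z, hzW, hzU, hzV⟩ := hH
      ((Finset.univ.filter (fun i : Fin n => Γ.Adj i.castSucc (Fin.last n))).image g)
      ((Finset.univ.filter (fun i : Fin n => ¬ Γ.Adj i.castSucc (Fin.last n))).image g) (by
        rw [Finset.disjoint_left]
        intro x hx hy
        simp only [Finset.mem_image, Finset.mem_filter, Finset.mem_univ, true_and] at hx hy
        obtain ⟨p, hp, rfl⟩ := hx
        obtain ⟨q, hq, hqp⟩ := hy
        rw [hg hqp] at hq
        exact hq hp) (Finset.univ.image g)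
    have hz : ∀ i : Fin n, g i ≠ z := by
      intro i h
      exact hzW (h ▸ Finset.mem_image_of_mem _ (Finset.mem_univ i))
    have hz2 : ∀ i : Fin n, (H.Adj z (g i) ↔ Γ.Adj i.castSucc (Fin.last n)) := by
      intro i
      constructor
      · intro h
        by_contra hcon
        exact hzV (g i) (Finset.mem_image.mpr ⟨i, by simp [hcon], rfl⟩) h
      · intro h
        exact hzU (g i) (Finset.mem_image.mpr ⟨i, by simp [h], rfl⟩)
    refine ⟨Fin.snoc g z, ?_, ?_⟩
    · intro a b
      refine Fin.lastCases ?_ (fun a => ?_) a <;> refine Fin.lastCases ?_ (fun b => ?_) b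
      · simp
      · simp only [Fin.snoc_last, Fin.snoc_castSucc]
        intro h
        exact absurd h.symm (hz b)
      · simp only [Fin.snoc_last, Fin.snoc_castSucc]
        intro h
        exact absurd h (hz a)
      · simp only [Fin.snoc_castSucc]
        intro h
        rw [hg h]
    · intro a b
      refine Fin.lastCases ?_ (fun a => ?_) a <;> refine Fin.lastCases ?_ (fun b => ?_) b
      · simp
      · simp only [Fin.snoc_last, Fin.snoc_castSucc]
        rw [hz2, Γ.adj_comm]
      · simp only [Fin.snoc_last, Fin.snoc_castSucc]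
        rw [H.adj_comm, hz2]
      · simp only [Fin.snoc_castSucc]
        exact hadj a b

end Pool.Agent.Lib.MP_f0391a_al
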