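import Pool.Agent.Lib.MP_f0391a_al.Chi

set_option autoImplicit false

namespace Pool.Agent.Lib.MP_f0391a_al

open Classical symmDiff

/-- bijections from `V` onto the finite set `s`, as functions to `ℕ`. -/
noncomputable def bij (V : Type) [Fintype V] (s : Finset ℕ) : Finset (V → ℕ) :=
  (Fintype.piFinset (fun _ : V => s)).filter
    (fun e => Function.Injective e ∧ Finset.univ.image e = s)

section
variable {V W : Type} [Fintype V] [Fintype W]

lemma mem_bij {s : Finset ℕ} {e : V → ℕ} :
    e ∈ bij V s ↔ Function.Injective e ∧ Finset.univ.image e = s := by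
  unfold bij
  rw [Finset.mem_filter, Fintype.mem_piFinset]
  constructor
  · exact fun h => h.2
  · intro h
    refine ⟨fun a => ?_, h⟩
    rw [← h.2]
    exact Finset.mem_image_of_mem _ (Finset.mem_univ a)

lemma card_of_mem_bij {s : Finset ℕ} {e : V → ℕ} (h : e ∈ bij V s) :
    s.card = Fintype.card V := by
  rw [mem_bij] at h
  rw [← h.2, Finset.card_image_of_injective _ h.1, Finset.card_univ]

lemma exists_mem_bij {s : Finset ℕ} (h : s.card = Fintype.card V) : ∃ e : V → ℕ, e ∈ bij V s := by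
  have e : V ≃ s := Fintype.equivOfCardEq (by simp [h])
  refine ⟨fun v => e v, ?_⟩
  rw [mem_bij]
  refine ⟨Subtype.val_injective.comp e.injective, ?_⟩
  ext x
  rw [Finset.mem_image]
  constructor
  · rintro ⟨v, -, rfl⟩
    exact (e v).2
  · intro hx
    exact ⟨e.symm ⟨x, hx⟩, Finset.mem_univ _, by simp⟩

/-- Sum over bijections onto `s` in terms of a base point. -/
lemma sum_bij_base {M : Type} [AddCommMonoid M] {s : Finset ℕ} {e₀ : W → ℕ} (h₀ : e₀ ∈ bij W s)
    (f : (V → ℕ) → M) : ∑ e ∈ bij V s, f e = ∑ π : V ≃ W, f (e₀ ∘ π) := by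
  have h₀' := mem_bij.mp h₀
  symm
  refine Finset.sum_bij (fun (π : V ≃ W) _ => e₀ ∘ π) ?_ ?_ ?_ ?_
  · intro π _
    rw [mem_bij]
    refine ⟨h₀'.1.comp π.injective, ?_⟩
    rw [← h₀'.2]
    ext x
    simp only [Finset.mem_image, Finset.mem_univ, true_and, Function.comp]
    constructor
    · rintro ⟨a, rfl⟩; exact ⟨π a, rfl⟩
    · rintro ⟨a, rfl⟩; exact ⟨π.symm a, by simp⟩
  · intro π _ π' _ h
    ext a
    exact h₀'.1 (congrFun h a)
  · intro e he
    have he' := mem_bij.mp he
    have hex : ∀ v : V, ∃ w : W, e₀ w = e v := by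
      intro v
      have : e v ∈ Finset.univ.image e₀ := by
        rw [h₀'.2, ← he'.2]
        exact Finset.mem_image_of_mem _ (Finset.mem_univ v)
      obtain ⟨w, -, hw⟩ := Finset.mem_image.mp this
      exact ⟨w, hw⟩
    have hex2 : ∀ w : W, ∃ v : V, e v = e₀ w := by
      intro w
      have : e₀ w ∈ Finset.univ.image e := by
        rw [he'.2, ← h₀'.2]
        exact Finset.mem_image_of_mem _ (Finset.mem_univ w)
      obtain ⟨v, -, hv⟩ := Finset.mem_image.mp this
      exact ⟨v, hv⟩
    choose p hp using hex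
    choose q hq using hex2
    refine ⟨⟨p, q, ?_, ?_⟩, Finset.mem_univ _, ?_⟩
    · intro v; apply he'.1; rw [hq, hp]
    · intro w; apply h₀'.1; rw [hp, hq]
    · funext v
      exact hp v
  · intro π _
    rfl

/-- The basis function attached to a finite graph. -/
noncomputable def X (H : SimpleGraph V) (s : Finset ℕ) : ℚ :=
  ∑ e ∈ bij V s, chi H (bit.comap e)

lemma X_eq_zero {H : SimpleGraph V} {s : Finset ℕ} (h : s.card ≠ Fintype.card V) : X H s = 0 := by
  unfold X
  have : bij V s = ∅ := by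
    rw [Finset.eq_empty_iff_forall_notMem]
    intro e he
    exact h (card_of_mem_bij he)
  rw [this, Finset.sum_empty]

lemma X_base {H : SimpleGraph V} {s : Finset ℕ} {e₀ : W → ℕ} (h₀ : e₀ ∈ bij W s) :
    X H s = ∑ π : V ≃ W, chi H ((bit.comap e₀).comap π) := by
  unfold X
  rw [sum_bij_base h₀]
  rfl

lemma X_comap (φ : V ≃ W) (H : SimpleGraph W) (s : Finset ℕ) : X (H.comap φ) s = X H s := by
  by_cases hs : s.card = Fintype.card W
  · obtain ⟨e₀, h₀⟩ := exists_mem_bij hs
    rw [X_base h₀, X_base h₀]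
    refine Fintype.sum_equiv (Equiv.equivCongr φ (Equiv.refl W)) _ _ ?_
    intro π
    rw [← chi_comap φ H]
    congr 1
    ext a b
    simp
  · rw [X_eq_zero hs, X_eq_zero]
    rw [Fintype.card_congr φ]
    exact hs

lemma X_iso {H : SimpleGraph V} {H' : SimpleGraph W} (φ : H ≃g H') (s : Finset ℕ) :
    X H s = X H' s := by
  rw [← X_comap φ.toEquiv H']
  congr 1
  ext a b
  rw [SimpleGraph.comap_adj]
  exact (φ.map_rel_iff (a := a) (b := b)).symm

/-- Invariance under switching isomorphisms. -/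
lemma X_switch {H : SimpleGraph V} (hH : IsEven H) (σ : Equiv.Perm ℕ) (S : Set ℕ)
    (hσ : ∀ i j, i ≠ j → (bit.Adj (σ i) (σ j) ↔ (bit.Adj i j ↔ (i ∈ S ↔ j ∈ S))))
    (s : Finset ℕ) : X H (s.map σ.toEmbedding) = X H s := by
  unfold X
  symm
  refine Finset.sum_bij (fun e _ => σ ∘ e) ?_ ?_ ?_ ?_
  · intro e he
    rw [mem_bij] at he ⊢
    refine ⟨σ.injective.comp he.1, ?_⟩
    rw [← he.2]
    ext x
    simp only [Finset.mem_image, Finset.mem_univ, true_and, Function.comp, Finset.mem_map_equiv]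
    constructor
    · rintro ⟨a, rfl⟩; exact ⟨a, by simp⟩
    · rintro ⟨a, ha⟩; exact ⟨a, by simp [ha]⟩
  · intro e _ e' _ h
    funext v
    exact σ.injective (congrFun h v)
  · intro e he
    rw [mem_bij] at he
    refine ⟨σ.symm ∘ e, ?_, ?_⟩
    · rw [mem_bij]
      refine ⟨σ.symm.injective.comp he.1, ?_⟩
      ext x
      have := congrArg (fun t => σ x ∈ t) he.2
      simp only [Finset.mem_image, Finset.mem_univ, true_and, Finset.mem_map_equiv,
        Equiv.symm_apply_apply, eq_iff_iff] at this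
      rw [← this]
      simp only [Finset.mem_image, Finset.mem_univ, true_and, Function.comp]
      constructor
      · rintro ⟨a, rfl⟩; exact ⟨a, by simp⟩
      · rintro ⟨a, ha⟩; exact ⟨a, by simp [ha]⟩
    · funext v; simp
  · intro e he
    rw [mem_bij] at he
    have : bit.comap (σ ∘ e) = bit.comap e ∆ cut ((Finset.univ.filter (fun v => e v ∈ S) : Finset V) : Set V) := by
      ext a b
      rw [adj_symmDiff]
      simp only [SimpleGraph.comap_adj, Function.comp, cut, Finset.coe_filter, Finset.mem_univ,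
        true_and, Set.mem_ofPred_eq]
      by_cases hab : a = b
      · subst hab
        simp
      · rw [hσ _ _ (fun h => hab (he.1 h))]
        tauto
    rw [this, chi_symmDiff, chi_cut hH, mul_one]

end

/-- The product formula. -/
lemma X_sum {V W : Type} [Fintype V] [Fintype W] (H : SimpleGraph V) (H' : SimpleGraph W)
    (s : Finset ℕ) :
    ∑ t ∈ s.powerset, X H t * X H' (s \ t) = X (H ⊕g H') s := by
  unfold X
  have hmaps : ∀ e ∈ bij (V ⊕ W) s, Finset.univ.image (e ∘ Sum.inl) ∈ s.powerset := by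
    intro e he
    rw [mem_bij] at he
    rw [Finset.mem_powerset, ← he.2]
    intro x hx
    rw [Finset.mem_image] at hx ⊢
    obtain ⟨a, -, rfl⟩ := hx
    exact ⟨Sum.inl a, Finset.mem_univ _, rfl⟩
  rw [← Finset.sum_fiberwise_of_maps_to hmaps]
  refine Finset.sum_congr rfl fun t ht => ?_
  rw [Finset.mem_powerset] at ht
  rw [Finset.sum_mul_sum, ← Finset.sum_product']
  symm
  refine Finset.sum_bij' (fun e _ => (e ∘ Sum.inl, e ∘ Sum.inr)) (fun p _ => Sum.elim p.1 p.2)
    ?_ ?_ ?_ ?_ ?_
  · intro e he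
    rw [Finset.mem_filter, mem_bij] at he
    obtain ⟨⟨hinj, himg⟩, himg2⟩ := he
    rw [Finset.mem_product, mem_bij, mem_bij]
    refine ⟨⟨hinj.comp Sum.inl_injective, himg2⟩, hinj.comp Sum.inr_injective, ?_⟩
    ext x
    rw [Finset.mem_sdiff, ← himg, ← himg2]
    simp only [Finset.mem_image, Finset.mem_univ, true_and, Function.comp, Sum.exists, not_exists]
    constructor
    · rintro ⟨a, rfl⟩
      exact ⟨Or.inr ⟨a, rfl⟩, fun b hb => by simpa using hinj hb⟩
    · rintro ⟨⟨a, ha⟩ | ⟨a, ha⟩, h2⟩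
      · exact absurd ha (h2 a)
      · exact ⟨a, ha⟩
  · intro p hp
    rw [Finset.mem_product, mem_bij, mem_bij] at hp
    obtain ⟨⟨h1, h2⟩, h3, h4⟩ := hp
    rw [Finset.mem_filter, mem_bij]
    have ha : ∀ a, p.1 a ∈ t := fun a => by
      rw [← h2]; exact Finset.mem_image_of_mem _ (Finset.mem_univ a)
    have hb : ∀ b, p.2 b ∈ s \ t := fun b => by
      rw [← h4]; exact Finset.mem_image_of_mem _ (Finset.mem_univ b)
    refine ⟨⟨?_, ?_⟩, ?_⟩
    · refine Function.Injective.sumElim h1 h3 ?_
      intro a b hab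
      have := hb b
      rw [← hab, Finset.mem_sdiff] at this
      exact this.2 (ha a)
    · ext x
      simp only [Finset.mem_image, Finset.mem_univ, true_and, Sum.exists, Sum.elim_inl,
        Sum.elim_inr]
      constructor
      · rintro (⟨a, rfl⟩ | ⟨b, rfl⟩)
        · exact ht (ha a)
        · exact (Finset.mem_sdiff.mp (hb b)).1
      · intro hx
        by_cases hxt : x ∈ t
        · rw [← h2] at hxt
          obtain ⟨a, -, rfl⟩ := Finset.mem_image.mp hxt
          exact Or.inl ⟨a, rfl⟩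
        · have : x ∈ s \ t := Finset.mem_sdiff.mpr ⟨hx, hxt⟩
          rw [← h4] at this
          obtain ⟨a, -, rfl⟩ := Finset.mem_image.mp this
          exact Or.inr ⟨a, rfl⟩
    · rw [← h2]
      rfl
  · intro e _
    funext x
    rcases x with x | x <;> rfl
  · intro p _
    rfl
  · intro e _
    rw [chi_sum]
    rfl

end Pool.Agent.Lib.MP_f0391a_al
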